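import Mathlib

set_option autoImplicit false

/-!
# A family of binary automata: the reachable sets
-/

namespace Pool.Agent.W453.MAG

open Finset

/-- the step of the subset automaton -/
def dl (n : ℕ) (R : Finset ℕ) (T : Finset ℕ) (x : Fin 2) : Finset ℕ :=
  (range n).filter fun j => (1 ≤ j ∧ j - 1 ∈ T) ∨
    (x = 1 ∧ ((j = 0 ∧ ∃ t ∈ T, t ∉ R) ∨ (j = n - 1 ∧ n - 1 ∈ T)))

theorem mem_a (n : ℕ) (R T : Finset ℕ) (j : ℕ) :
    j ∈ dl n R T 0 ↔ j < n ∧ 1 ≤ j ∧ j - 1 ∈ T := by
  simp [dl]

theorem mem_b (n : ℕ) (R T : Finset ℕ) (j : ℕ) :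
    j ∈ dl n R T 1 ↔ j < n ∧ ((1 ≤ j ∧ j - 1 ∈ T) ∨ ((j = 0 ∧ ∃ t ∈ T, t ∉ R) ∨
      (j = n - 1 ∧ n - 1 ∈ T))) := by
  simp [dl]

theorem dl_sub (n : ℕ) (R T : Finset ℕ) (x : Fin 2) : dl n R T x ⊆ range n := filter_subset _ _

/-- the run of the subset automaton -/
def run (n : ℕ) (R : Finset ℕ) (T : Finset ℕ) (w : List (Fin 2)) : Finset ℕ := w.foldl (dl n R) T

theorem run_append (n : ℕ) (R T : Finset ℕ) (u w : List (Fin 2)) :
    run n R T (u ++ w) = run n R (run n R T u) w := by
  simp [run, List.foldl_append]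

theorem run_cons (n : ℕ) (R T : Finset ℕ) (x : Fin 2) (w : List (Fin 2)) :
    run n R T (x :: w) = run n R (dl n R T x) w := rfl

/-- reachable sets -/
def Rch (n : ℕ) (R : Finset ℕ) (T : Finset ℕ) : Prop := ∃ u, run n R {0} u = T

theorem Rch.step {n : ℕ} {R T : Finset ℕ} (h : Rch n R T) (x : Fin 2) : Rch n R (dl n R T x) := by
  obtain ⟨u, hu⟩ := h
  refine ⟨u ++ [x], ?_⟩
  rw [run_append, hu]
  rfl

/-- the unreachable sets -/
def Unr (n : ℕ) (R : Finset ℕ) (T : Finset ℕ) : Prop :=
  ∃ l, 1 ≤ l ∧ ∃ G : Finset ℕ, G.Nonempty ∧ G ⊆ R ∧ (∀ g ∈ G, g + l ≤ n - 2) ∧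
    T = range l ∪ G.image (· + l)

theorem mem_u (l : ℕ) (G : Finset ℕ) (j : ℕ) :
    j ∈ range l ∪ G.image (· + l) ↔ j < l ∨ ∃ g ∈ G, g + l = j := by
  simp

theorem not_unr_run (n : ℕ) (hn : 3 ≤ n) (R : Finset ℕ) (hR : ∀ r ∈ R, 1 ≤ r ∧ r + 3 ≤ n)
    (u : List (Fin 2)) : ¬ Unr n R (run n R {0} u) ∧ run n R {0} u ⊆ range n := by
  induction u using List.reverseRecOn with
  | nil =>
    constructor
    · rintro ⟨l, hl, G, ⟨g, hg⟩, hGR, hG, h⟩
      have h1 : g + l ∈ run n R {0} [] := by
        rw [h, mem_u]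
        exact Or.inr ⟨g, hg, rfl⟩
      have h2 : g + l = 0 := by simpa [run] using h1
      omega
    · intro j hj
      have : j = 0 := by simpa [run] using hj
      simp [this]
      omega
  | append_singleton u x ih =>
    obtain ⟨ih1, ih2⟩ := ih
    set T := run n R {0} u with hT
    have hrun : run n R {0} (u ++ [x]) = dl n R T x := by
      rw [run_append]
      rfl
    rw [hrun]
    refine ⟨?_, dl_sub _ _ _ _⟩
    rintro ⟨l, hl, G, hGn, hGR, hG, h⟩
    obtain ⟨g0, hg0⟩ := hGn
    have hg0' := hG g0 hg0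
    have hg0'' := hR g0 (hGR hg0)
    have h0 : 0 ∈ dl n R T x := by
      rw [h, mem_u]
      left
      omega
    fin_cases x
    · change 0 ∈ dl n R T 0 at h0
      rw [mem_a] at h0
      omega
    · change 0 ∈ dl n R T 1 at h0
      change dl n R T 1 = _ at h
      rw [mem_b] at h0
      have h1 : ∃ t ∈ T, t ∉ R := by
        rcases h0 with ⟨_, h0 | h0 | h0⟩
        · omega
        · exact h0.2
        · omega
      have hn1 : n - 1 ∉ dl n R T 1 := by
        rw [h, mem_u]
        rintro (h2 | ⟨g, hg, h2⟩)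
        · omega
        · have := hG g hg
          omega
      have hT1 : n - 1 ∉ T := by
        intro h2
        apply hn1
        rw [mem_b]
        exact ⟨by omega, Or.inr (Or.inr ⟨rfl, h2⟩)⟩
      have key : ∀ j, j ∈ T ↔ j + 1 ∈ dl n R T 1 := by
        intro j
        rw [mem_b]
        constructor
        · intro hj
          have h3 := mem_range.1 (ih2 hj)
          have h4 : j ≠ n - 1 := fun h5 => hT1 (h5 ▸ hj)
          exact ⟨by omega, Or.inl ⟨by omega, by simpa using hj⟩⟩
        · rintro ⟨_, h3 | h3 | h3⟩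
          · simpa using h3.2
          · omega
          · exact absurd h3.2 hT1
      have hTe : T = range (l - 1) ∪ G.image (· + (l - 1)) := by
        ext j
        rw [key, h, mem_u, mem_u]
        constructor
        · rintro (h3 | ⟨g, hg, h3⟩)
          · left
            omega
          · right
            exact ⟨g, hg, by omega⟩
        · rintro (h3 | ⟨g, hg, h3⟩)
          · left
            omega
          · right
            exact ⟨g, hg, by omega⟩
      by_cases hl1 : l = 1
      · subst hl1
        obtain ⟨t, ht, htR⟩ := h1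
        rw [hTe, mem_u] at ht
        rcases ht with ht | ⟨g, hg, ht⟩
        · omega
        · apply htR
          have : t = g := by omega
          rw [this]
          exact hGR hg
      · exact ih1 ⟨l - 1, by omega, G, ⟨g0, hg0⟩, hGR, fun g hg => by have := hG g hg; omega, hTe⟩

theorem rch_range (n : ℕ) (R : Finset ℕ) (hR : ∀ r ∈ R, 1 ≤ r ∧ r + 3 ≤ n) (l : ℕ) (hl : 1 ≤ l)
    (hln : l ≤ n) : Rch n R (range l) := by
  induction l, hl using Nat.le_induction with
  | base => exact ⟨[], by simp [run]⟩
  | succ l hl ih =>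
    have h := (ih (by omega)).step 1
    convert h using 1
    ext j
    rw [mem_b]
    simp only [mem_range]
    constructor
    · intro hj
      refine ⟨by omega, ?_⟩
      by_cases h0 : j = 0
      · right; left
        exact ⟨h0, 0, by omega, fun h1 => by have := hR 0 h1; omega⟩
      · left
        omega
    · rintro ⟨h1, h2 | h2 | h2⟩ <;> omega

theorem rch_A (n : ℕ) (hn : 3 ≤ n) (R : Finset ℕ) (hR : ∀ r ∈ R, 1 ≤ r ∧ r + 3 ≤ n) (k : ℕ)
    (hk : k ≤ n - 1) : ∀ T : Finset ℕ, T ⊆ range n → (∀ j, k ≤ j → j < n → j ∈ T) →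
      Rch n R T := by
  induction k with
  | zero =>
    intro T hT h
    have : T = range n := by
      apply Subset.antisymm hT
      intro j hj
      exact h j (by omega) (mem_range.1 hj)
    rw [this]
    exact rch_range n R hR n (by omega) le_rfl
  | succ k ih =>
    intro T hT h
    set T' : Finset ℕ := (range n).filter fun j => j + 1 ∈ T ∨ j = n - 1 with hT'
    have hm : ∀ j, j ∈ T' ↔ j < n ∧ (j + 1 ∈ T ∨ j = n - 1) := by
      intro j
      simp [hT']
    have hr : Rch n R T' := by
      apply ih (by omega)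
      · exact filter_subset _ _
      · intro j h1 h2
        rw [hm]
        refine ⟨h2, ?_⟩
        by_cases h3 : j = n - 1
        · exact Or.inr h3
        · exact Or.inl (h (j + 1) (by omega) (by omega))
    have hnT : n - 1 ∈ T := h (n - 1) (by omega) (by omega)
    by_cases h0 : 0 ∈ T
    · have h1 := hr.step 1
      convert h1 using 1
      ext j
      rw [mem_b]
      constructor
      · intro hj
        have hjn := mem_range.1 (hT hj)
        refine ⟨hjn, ?_⟩
        by_cases h3 : j = 0
        · right; left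
          refine ⟨h3, n - 1, (hm _).2 ⟨by omega, Or.inr rfl⟩, fun h4 => ?_⟩
          have := hR _ h4
          omega
        · left
          refine ⟨by omega, (hm _).2 ⟨by omega, Or.inl ?_⟩⟩
          have : j - 1 + 1 = j := by omega
          rwa [this]
      · rintro ⟨h2, ⟨h3, h4⟩ | h3 | h3⟩
        · rw [hm] at h4
          rcases h4 with ⟨_, h4 | h4⟩
          · have : j - 1 + 1 = j := by omega
            rwa [this] at h4
          · omega
        · rw [h3.1]
          exact h0
        · rw [h3.1]
          exact hnT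
    · have h1 := hr.step 0
      convert h1 using 1
      ext j
      rw [mem_a]
      constructor
      · intro hj
        have hjn := mem_range.1 (hT hj)
        have h3 : j ≠ 0 := fun h4 => h0 (h4 ▸ hj)
        refine ⟨hjn, by omega, (hm _).2 ⟨by omega, Or.inl ?_⟩⟩
        have : j - 1 + 1 = j := by omega
        rwa [this]
      · rintro ⟨h2, h3, h4⟩
        rw [hm] at h4
        rcases h4 with ⟨_, h4 | h4⟩
        · have : j - 1 + 1 = j := by omega
          rwa [this] at h4
        · omega

theorem rch_B (n : ℕ) (hn : 3 ≤ n) (R : Finset ℕ) (hR : ∀ r ∈ R, 1 ≤ r ∧ r + 3 ≤ n)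
    (T : Finset ℕ) (hT : T ⊆ range n) (h0 : 0 ∉ T) : Rch n R T := by
  set T' : Finset ℕ := (range n).filter fun j => j + 1 ∈ T ∨ j = n - 1 with hT'
  have hm : ∀ j, j ∈ T' ↔ j < n ∧ (j + 1 ∈ T ∨ j = n - 1) := by
    intro j
    simp [hT']
  have hr : Rch n R T' := by
    apply rch_A n hn R hR (n - 1) le_rfl T' (filter_subset _ _)
    intro j h1 h2
    rw [hm]
    exact ⟨h2, Or.inr (by omega)⟩
  have h1 := hr.step 0
  convert h1 using 1
  ext j
  rw [mem_a]
  constructor
  · intro hj
    have hjn := mem_range.1 (hT hj)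
    have h3 : j ≠ 0 := fun h4 => h0 (h4 ▸ hj)
    refine ⟨hjn, by omega, (hm _).2 ⟨by omega, Or.inl ?_⟩⟩
    have : j - 1 + 1 = j := by omega
    rwa [this]
  · rintro ⟨h2, h3, h4⟩
    rw [hm] at h4
    rcases h4 with ⟨_, h4 | h4⟩
    · have : j - 1 + 1 = j := by omega
      rwa [this] at h4
    · omega

theorem rch_C (n : ℕ) (hn : 3 ≤ n) (R : Finset ℕ) (hR : ∀ r ∈ R, 1 ≤ r ∧ r + 3 ≤ n)
    (G : Finset ℕ) (l : ℕ) (hG1 : ∀ g ∈ G, 1 ≤ g) (hG : ∀ g ∈ G, g + l ≤ n - 2)
    (hg : ∃ g ∈ G, g ∉ R) : ∀ k ≤ l, Rch n R (range k ∪ G.image (· + k)) := by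
  intro k
  induction k with
  | zero =>
    intro _
    apply rch_B n hn R hR
    · intro j hj
      rw [mem_u] at hj
      rcases hj with hj | ⟨g, hg, hj⟩
      · omega
      · have := hG g hg
        rw [mem_range]
        omega
    · rw [mem_u]
      rintro (hj | ⟨g, hg, hj⟩)
      · omega
      · have := hG1 g hg
        omega
  | succ k ih =>
    intro hk
    have h1 := (ih (by omega)).step 1
    convert h1 using 1
    ext j
    rw [mem_b, mem_u]
    simp only [mem_u]
    constructor
    · rintro (h2 | ⟨g, hg2, h2⟩)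
      · refine ⟨?_, ?_⟩
        · obtain ⟨g, hg, _⟩ := hg
          have := hG g hg
          have := hG1 g hg
          omega
        · by_cases h3 : j = 0
          · right; left
            refine ⟨h3, ?_⟩
            by_cases hk0 : k = 0
            · obtain ⟨g, hg3, hg4⟩ := hg
              exact ⟨g, Or.inr ⟨g, hg3, by omega⟩, hg4⟩
            · exact ⟨0, Or.inl (by omega), fun h4 => by have := hR 0 h4; omega⟩
          · left
            exact ⟨by omega, Or.inl (by omega)⟩
      · have := hG g hg2
        have := hG1 g hg2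
        exact ⟨by omega, Or.inl ⟨by omega, Or.inr ⟨g, hg2, by omega⟩⟩⟩
    · rintro ⟨h2, ⟨h3, h4 | ⟨g, hg2, h4⟩⟩ | h3 | ⟨h3, h4 | ⟨g, hg2, h4⟩⟩⟩
      · left
        omega
      · right
        exact ⟨g, hg2, by omega⟩
      · left
        omega
      · obtain ⟨g, hg, _⟩ := hg
        have := hG g hg
        have := hG1 g hg
        omega
      · have := hG g hg2
        omega

/-- exactly the sets which are not of the form `Unr` are reachable -/
theorem rch_iff (n : ℕ) (hn : 3 ≤ n) (R : Finset ℕ) (hR : ∀ r ∈ R, 1 ≤ r ∧ r + 3 ≤ n)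
    (T : Finset ℕ) : Rch n R T ↔ T ⊆ range n ∧ ¬ Unr n R T := by
  constructor
  · rintro ⟨u, rfl⟩
    have := not_unr_run n hn R hR u
    exact ⟨this.2, this.1⟩
  · rintro ⟨hT, hU⟩
    by_cases h0 : 0 ∈ T
    · by_cases h1 : n - 1 ∈ T
      · apply rch_A n hn R hR (n - 1) le_rfl T hT
        intro j h2 h3
        have : j = n - 1 := by omega
        rwa [this]
      · have hex : ∃ l, l ∉ T := ⟨n - 1, h1⟩
        classical
        set l := Nat.find hex with hl
        have hlT : l ∉ T := Nat.find_spec hex
        have hlm : ∀ j < l, j ∈ T := fun j hj => by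
          by_contra h
          exact absurd (Nat.find_min' hex h) (by omega)
        have hl1 : 1 ≤ l := by
          by_contra h
          have : l = 0 := by omega
          exact hlT (this ▸ h0)
        have hln : l ≤ n - 1 := Nat.find_min' hex h1
        set G : Finset ℕ := (range n).filter fun g => 1 ≤ g ∧ g + l ∈ T with hG
        have hGm : ∀ g, g ∈ G ↔ g < n ∧ 1 ≤ g ∧ g + l ∈ T := by
          intro g
          simp [hG]
        have hTe : T = range l ∪ G.image (· + l) := by
          ext j
          rw [mem_u]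
          constructor
          · intro hj
            by_cases h2 : j < l
            · exact Or.inl h2
            · have h3 : j ≠ l := fun h4 => hlT (h4 ▸ hj)
              have h4 := mem_range.1 (hT hj)
              refine Or.inr ⟨j - l, (hGm _).2 ⟨by omega, by omega, ?_⟩, by omega⟩
              have : j - l + l = j := by omega
              rwa [this]
          · rintro (h2 | ⟨g, hg, h2⟩)
            · exact hlm j h2
            · rw [← h2]
              exact ((hGm g).1 hg).2.2
        have hG2 : ∀ g ∈ G, g + l ≤ n - 2 := by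
          intro g hg
          have h2 := ((hGm g).1 hg).2.2
          have h3 := mem_range.1 (hT h2)
          have h4 : g + l ≠ n - 1 := fun h5 => h1 (h5 ▸ h2)
          omega
        by_cases hGe : G.Nonempty
        · by_cases hGR : G ⊆ R
          · exact absurd ⟨l, hl1, G, hGe, hGR, hG2, hTe⟩ hU
          · rw [not_subset] at hGR
            rw [hTe]
            exact rch_C n hn R hR G l (fun g hg => ((hGm g).1 hg).2.1) hG2 hGR l le_rfl
        · rw [not_nonempty_iff_eq_empty] at hGe
          rw [hTe, hGe]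
          simp only [image_empty, union_empty]
          exact rch_range n R hR l hl1 (by omega)
    · exact rch_B n hn R hR T hT h0

end Pool.Agent.W453.MAG
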