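import Pool.Agent.W453.MAG.A

set_option autoImplicit false

/-!
# The number of reachable sets
-/

namespace Pool.Agent.W453.MAG

open Finset

/-- the number of unreachable sets -/
def fN (N : ℕ) (R : Finset ℕ) : ℕ :=
  ∑ k ∈ Icc 1 N, (2 ^ (R.filter (· ≤ k)).card - 1)

/-- the index set of the unreachable sets -/
def Ix (n : ℕ) (R : Finset ℕ) : Finset ((_ : ℕ) × Finset ℕ) :=
  (Icc 1 (n - 3)).sigma fun l => (R.filter (fun r => r + l ≤ n - 2)).powerset.erase ∅

/-- the unreachable sets -/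
def Uf (n : ℕ) (R : Finset ℕ) : Finset (Finset ℕ) :=
  (Ix n R).image fun p => range p.1 ∪ p.2.image (· + p.1)

theorem mem_Ix (n : ℕ) (R : Finset ℕ) (p : (_ : ℕ) × Finset ℕ) : p ∈ Ix n R ↔
    (1 ≤ p.1 ∧ p.1 ≤ n - 3) ∧ (p.2 ≠ ∅ ∧ p.2 ⊆ R ∧ ∀ g ∈ p.2, g + p.1 ≤ n - 2) := by
  unfold Ix
  rw [mem_sigma, mem_Icc, mem_erase, mem_powerset]
  have : p.2 ⊆ R.filter (fun r => r + p.1 ≤ n - 2) ↔ p.2 ⊆ R ∧ ∀ g ∈ p.2, g + p.1 ≤ n - 2 := by
    constructor
    · intro h
      exact ⟨fun g hg => (mem_filter.1 (h hg)).1, fun g hg => (mem_filter.1 (h hg)).2⟩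
    · rintro ⟨h1, h2⟩ g hg
      exact mem_filter.2 ⟨h1 hg, h2 g hg⟩
  rw [this]

theorem mem_Uf (n : ℕ) (hn : 3 ≤ n) (R : Finset ℕ) (hR : ∀ r ∈ R, 1 ≤ r ∧ r + 3 ≤ n)
    (T : Finset ℕ) : T ∈ Uf n R ↔ Unr n R T := by
  unfold Uf Unr
  rw [mem_image]
  constructor
  · rintro ⟨p, hp, rfl⟩
    rw [mem_Ix] at hp
    exact ⟨p.1, hp.1.1, p.2, nonempty_iff_ne_empty.2 hp.2.1, hp.2.2.1, hp.2.2.2, rfl⟩
  · rintro ⟨l, hl, G, ⟨g, hg⟩, hGR, hG, rfl⟩
    refine ⟨⟨l, G⟩, ?_, rfl⟩
    rw [mem_Ix]
    have h1 := hG g hg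
    have h2 := hR g (hGR hg)
    exact ⟨⟨hl, by show l ≤ n - 3; omega⟩, nonempty_iff_ne_empty.1 ⟨g, hg⟩, hGR, hG⟩

theorem card_Uf (n : ℕ) (hn : 3 ≤ n) (R : Finset ℕ) (hR : ∀ r ∈ R, 1 ≤ r ∧ r + 3 ≤ n) :
    (Uf n R).card = fN (n - 3) R := by
  unfold Uf
  rw [card_image_of_injOn]
  · unfold Ix fN
    rw [card_sigma]
    refine sum_nbij' (fun l => n - 2 - l) (fun l => n - 2 - l) ?_ ?_ ?_ ?_ ?_
    · intro l hl
      rw [mem_Icc] at hl ⊢
      omega
    · intro l hl
      rw [mem_Icc] at hl ⊢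
      omega
    · intro l hl
      rw [mem_Icc] at hl
      omega
    · intro l hl
      rw [mem_Icc] at hl
      omega
    · intro l hl
      rw [mem_Icc] at hl
      rw [card_erase_of_mem (empty_mem_powerset _), card_powerset]
      have : R.filter (fun r => r + l ≤ n - 2) = R.filter (· ≤ n - 2 - l) := by
        apply filter_congr
        intro r _
        omega
      rw [this]
  · have key : ∀ p q : (_ : ℕ) × Finset ℕ, p ∈ Ix n R → q ∈ Ix n R →
        range p.1 ∪ p.2.image (· + p.1) = range q.1 ∪ q.2.image (· + q.1) → ¬ p.1 < q.1 := by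
      intro p q hp hq h hlt
      rw [mem_Ix] at hp
      have h1 : p.1 ∈ range q.1 ∪ q.2.image (· + q.1) := by
        rw [mem_u]
        exact Or.inl hlt
      rw [← h, mem_u] at h1
      rcases h1 with h1 | ⟨g, hg, h1⟩
      · omega
      · have := hR g (hp.2.2.1 hg)
        omega
    intro p hp q hq h
    dsimp only at h
    have hp' : p ∈ Ix n R := hp
    have hq' : q ∈ Ix n R := hq
    have h1 := key p q hp' hq' h
    have h2 := key q p hq' hp' h.symm
    have h3 : p.1 = q.1 := by omega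
    obtain ⟨l, G⟩ := p
    obtain ⟨l', G'⟩ := q
    change l = l' at h3
    subst h3
    dsimp only at h
    rw [mem_Ix] at hp' hq'
    have sub : ∀ A B : Finset ℕ, (∀ g ∈ A, 1 ≤ g) →
        range l ∪ A.image (· + l) = range l ∪ B.image (· + l) → A ⊆ B := by
      intro A B hA h g hg
      have h4 : g + l ∈ range l ∪ A.image (· + l) := by
        rw [mem_u]
        exact Or.inr ⟨g, hg, rfl⟩
      rw [h, mem_u] at h4
      rcases h4 with h4 | ⟨g', hg', h4⟩
      · have := hA g hg
        omega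
      · have : g' = g := by omega
        exact this ▸ hg'
    have hGG : G = G' := by
      apply Subset.antisymm
      · exact sub G G' (fun g hg => (hR g (hp'.2.2.1 hg)).1) h
      · exact sub G' G (fun g hg => (hR g (hq'.2.2.1 hg)).1) h.symm
    rw [hGG]

theorem Uf_sub (n : ℕ) (hn : 3 ≤ n) (R : Finset ℕ) : Uf n R ⊆ (range n).powerset := by
  intro T hT
  unfold Uf at hT
  rw [mem_image] at hT
  obtain ⟨p, hp, rfl⟩ := hT
  rw [mem_Ix] at hp
  rw [mem_powerset]
  intro j hj
  rw [mem_u] at hj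
  rw [mem_range]
  rcases hj with hj | ⟨g, hg, hj⟩
  · omega
  · have := hp.2.2.2 g hg
    omega

/-- the number of reachable sets -/
theorem ncard_rch (n : ℕ) (hn : 3 ≤ n) (R : Finset ℕ) (hR : ∀ r ∈ R, 1 ≤ r ∧ r + 3 ≤ n) :
    Set.ncard {T | Rch n R T} = 2 ^ n - fN (n - 3) R := by
  have h : {T | Rch n R T} = ((((range n).powerset \ Uf n R : Finset (Finset ℕ))) :
      Set (Finset ℕ)) := by
    ext T
    rw [Set.mem_ofPred_eq, rch_iff n hn R hR, mem_coe, mem_sdiff, mem_powerset, mem_Uf n hn R hR]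
  rw [h, Set.ncard_coe_finset, card_sdiff_of_subset (Uf_sub n hn R), card_powerset, card_range,
    card_Uf n hn R hR]

/-! ### the attained numbers -/

/-- attained numbers -/
def At (N v : ℕ) : Prop := ∃ R : Finset ℕ, (∀ r ∈ R, 1 ≤ r ∧ r ≤ N) ∧ fN N R = v

theorem sum_shift (N : ℕ) (F : ℕ → ℕ) : ∑ k ∈ Icc 1 (N + 1), F k = F 1 + ∑ k ∈ Icc 1 N, F (k + 1) := by
  induction N with
  | zero => simp
  | succ N ih =>
    rw [sum_Icc_succ_top (by omega), ih, sum_Icc_succ_top (by omega)]
    ring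

theorem card_shift (R : Finset ℕ) (k : ℕ) :
    ((R.image (· + 1)).filter (· ≤ k + 1)).card = (R.filter (· ≤ k)).card := by
  have : (R.image (· + 1)).filter (· ≤ k + 1) = (R.filter (· ≤ k)).image (· + 1) := by
    ext j
    simp only [mem_filter, mem_image]
    constructor
    · rintro ⟨⟨r, hr, rfl⟩, h⟩
      exact ⟨r, ⟨hr, by omega⟩, rfl⟩
    · rintro ⟨r, ⟨hr, h⟩, rfl⟩
      exact ⟨⟨r, hr, rfl⟩, by omega⟩
  rw [this, card_image_of_injective _ (add_left_injective 1)]

theorem At.pad {N v : ℕ} (h : At N v) : At (N + 1) v := by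
  obtain ⟨R, hR, hv⟩ := h
  refine ⟨R.image (· + 1), ?_, ?_⟩
  · intro r hr
    rw [mem_image] at hr
    obtain ⟨r', hr', rfl⟩ := hr
    have := hR r' hr'
    omega
  · unfold fN at hv ⊢
    rw [sum_shift]
    have h1 : (R.image (· + 1)).filter (· ≤ 1) = ∅ := by
      rw [filter_eq_empty_iff]
      intro j hj
      rw [mem_image] at hj
      obtain ⟨r, hr, rfl⟩ := hj
      have := hR r hr
      omega
    rw [h1, card_empty]
    simp only [card_shift, pow_zero]
    omega

theorem At.dbl {N v : ℕ} (h : At N v) : At (N + 1) (2 * v + N + 1) := by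
  obtain ⟨R, hR, hv⟩ := h
  have h1n : 1 ∉ R.image (· + 1) := by
    rw [mem_image]
    rintro ⟨r, hr, h⟩
    have := hR r hr
    omega
  refine ⟨insert 1 (R.image (· + 1)), ?_, ?_⟩
  · intro r hr
    rw [mem_insert, mem_image] at hr
    rcases hr with hr | ⟨r', hr', rfl⟩
    · omega
    · have := hR r' hr'
      omega
  · unfold fN at hv ⊢
    rw [sum_shift]
    have h2 : ∀ k, ((insert 1 (R.image (· + 1))).filter (· ≤ k + 1)).card =
        (R.filter (· ≤ k)).card + 1 := by
      intro k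
      rw [filter_insert, if_pos (by omega), card_insert_of_notMem, card_shift]
      intro h
      exact h1n (mem_filter.1 h).1
    have h3 : ((insert 1 (R.image (· + 1))).filter (· ≤ 1)).card = 1 := by
      have := h2 0
      rw [zero_add] at this
      rw [this]
      have : R.filter (· ≤ 0) = ∅ := by
        rw [filter_eq_empty_iff]
        intro r hr
        have := hR r hr
        omega
      rw [this, card_empty]
    rw [h3]
    simp only [h2]
    have h4 : ∀ k ∈ Icc 1 N, 2 ^ ((R.filter (· ≤ k)).card + 1) - 1 =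
        2 * (2 ^ (R.filter (· ≤ k)).card - 1) + 1 := by
      intro k _
      have : 1 ≤ 2 ^ (R.filter (· ≤ k)).card := Nat.one_le_two_pow
      rw [pow_succ]
      omega
    rw [sum_congr rfl h4, sum_add_distrib, ← mul_sum, hv, sum_const, Nat.card_Icc, smul_eq_mul]
    omega

theorem at_zero : At 0 0 := ⟨∅, by simp, by simp [fN]⟩

/-- the end of the interval of attained numbers -/
def X : ℕ → ℕ
  | 0 => 0
  | 1 => 1
  | N + 2 => 2 * X N + N + 2

theorem X_ge (N : ℕ) : N ≤ X N := by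
  induction N using Nat.twoStepInduction with
  | zero => simp [X]
  | one => simp [X]
  | more N h1 h2 =>
    rw [X]
    omega

theorem at_all (N : ℕ) : ∀ v ≤ X N, At N v := by
  induction N using Nat.twoStepInduction with
  | zero =>
    intro v hv
    have : v = 0 := by simpa [X] using hv
    rw [this]
    exact at_zero
  | one =>
    intro v hv
    have hv' : v ≤ 1 := by simpa [X] using hv
    have h1 := at_zero.dbl
    have h2 := at_zero.pad
    interval_cases v
    · exact h2
    · exact h1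
  | more N ih _ =>
    intro v hv
    rw [X] at hv
    have hX := X_ge N
    by_cases h1 : v ≤ X N
    · exact (ih v h1).pad.pad
    · rcases Nat.even_or_odd' (v - (N + 1)) with ⟨x, hx | hx⟩
      · have h2 := (ih x (by omega)).dbl.pad
        have : 2 * x + N + 1 = v := by omega
        rwa [this] at h2
      · have h2 := (ih x (by omega)).pad.dbl
        have : 2 * x + (N + 1) + 1 = v := by omega
        rwa [this] at h2

theorem X_low (N : ℕ) : 2 ^ ((N + 4) / 2) ≤ X N + N + 4 := by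
  induction N using Nat.twoStepInduction with
  | zero => simp [X]
  | one => simp [X]
  | more N h1 h2 =>
    rw [X]
    have : (N + 2 + 4) / 2 = (N + 4) / 2 + 1 := by omega
    rw [this, pow_succ]
    omega

theorem X_low_odd (m : ℕ) : X (2 * m + 1) + (2 * m + 1) + 4 = 3 * 2 ^ (m + 1) := by
  induction m with
  | zero => simp [X]
  | succ m ih =>
    have : 2 * (m + 1) + 1 = (2 * m + 1) + 2 := by ring
    rw [this, X, pow_succ]
    omega

end Pool.Agent.W453.MAG
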