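import Pool.Agent.W453.MAG.B

set_option autoImplicit false

/-!
# The automata
-/

namespace Pool.Agent.W453.MAG

open Finset

/-- the automaton -/
def Mch (n : ℕ) (hn : 0 < n) (R : Finset ℕ) : NFA (Fin 2) (Fin n) where
  step := fun i x => {j | j.val = i.val + 1 ∨
    (x = 1 ∧ ((j.val = 0 ∧ i.val ∉ R) ∨ (j.val = n - 1 ∧ i.val = n - 1)))}
  start := {⟨0, hn⟩}
  accept := {⟨n - 1, by omega⟩}

/-- finite sets of numbers as sets of states -/
def ts (n : ℕ) (T : Finset ℕ) : Set (Fin n) := {j | j.val ∈ T}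

theorem mem_ts (n : ℕ) (T : Finset ℕ) (j : Fin n) : j ∈ ts n T ↔ j.val ∈ T := Iff.rfl

theorem step_ts (n : ℕ) (hn : 0 < n) (R T : Finset ℕ) (hT : T ⊆ range n) (x : Fin 2) :
    (Mch n hn R).stepSet (ts n T) x = ts n (dl n R T x) := by
  ext j
  rw [NFA.mem_stepSet, mem_ts]
  have hj := j.2
  unfold dl
  rw [mem_filter, mem_range]
  constructor
  · rintro ⟨i, hi, h⟩
    rw [mem_ts] at hi
    refine ⟨hj, ?_⟩
    rcases h with h | ⟨hx, ⟨h1, h2⟩ | ⟨h1, h2⟩⟩
    · left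
      refine ⟨by omega, ?_⟩
      have : j.val - 1 = i.val := by omega
      rw [this]
      exact hi
    · right
      exact ⟨hx, Or.inl ⟨h1, i.val, hi, h2⟩⟩
    · right
      exact ⟨hx, Or.inr ⟨h1, h2 ▸ hi⟩⟩
  · rintro ⟨_, ⟨h1, h2⟩ | ⟨hx, ⟨h1, t, ht, h2⟩ | ⟨h1, h2⟩⟩⟩
    · exact ⟨⟨j.val - 1, by omega⟩, h2, Or.inl (by show j.val = j.val - 1 + 1; omega)⟩
    · have := mem_range.1 (hT ht)
      exact ⟨⟨t, this⟩, ht, Or.inr ⟨hx, Or.inl ⟨h1, h2⟩⟩⟩
    · exact ⟨⟨n - 1, by omega⟩, h2, Or.inr ⟨hx, Or.inr ⟨h1, rfl⟩⟩⟩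

theorem evalFrom_ts (n : ℕ) (hn : 0 < n) (R : Finset ℕ) (w : List (Fin 2)) :
    ∀ T : Finset ℕ, T ⊆ range n → (Mch n hn R).evalFrom (ts n T) w = ts n (run n R T w) := by
  induction w with
  | nil =>
    intro T _
    rfl
  | cons x w ih =>
    intro T hT
    rw [NFA.evalFrom_cons, step_ts n hn R T hT, ih _ (dl_sub _ _ _ _)]
    rfl

theorem start_ts (n : ℕ) (hn : 0 < n) (R : Finset ℕ) : (Mch n hn R).start = ts n {0} := by
  ext j
  rw [mem_ts, mem_singleton]
  show j = ⟨0, hn⟩ ↔ _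
  rw [Fin.ext_iff]

theorem zero_sub' (n : ℕ) (hn : 0 < n) : ({0} : Finset ℕ) ⊆ range n := by
  intro j hj
  rw [mem_singleton] at hj
  rw [mem_range]
  omega

theorem mem_acc (n : ℕ) (hn : 0 < n) (R : Finset ℕ) (w : List (Fin 2)) :
    w ∈ (Mch n hn R).accepts ↔ n - 1 ∈ run n R {0} w := by
  rw [NFA.mem_accepts, start_ts, evalFrom_ts n hn R w _ (zero_sub' n hn)]
  constructor
  · rintro ⟨q, hq, h⟩
    have hq' : q = ⟨n - 1, by omega⟩ := hq
    rw [hq'] at h
    exact h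
  · intro h
    exact ⟨⟨n - 1, by omega⟩, rfl, h⟩

theorem run_sub (n : ℕ) (R : Finset ℕ) (w : List (Fin 2)) : ∀ T : Finset ℕ, T ⊆ range n →
    run n R T w ⊆ range n := by
  induction w with
  | nil => intro T hT; exact hT
  | cons x w ih => intro T _; exact ih _ (dl_sub _ _ _ _)

theorem run_rep (n : ℕ) (R : Finset ℕ) (k : ℕ) : ∀ T : Finset ℕ, T ⊆ range n → ∀ j,
    j ∈ run n R T (List.replicate k 0) ↔ j < n ∧ k ≤ j ∧ j - k ∈ T := by
  induction k with
  | zero =>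
    intro T hT j
    simp only [List.replicate_zero, run, List.foldl_nil, zero_le, true_and, Nat.sub_zero]
    exact ⟨fun h => ⟨mem_range.1 (hT h), h⟩, fun h => h.2⟩
  | succ k ih =>
    intro T hT j
    rw [List.replicate_succ, run_cons, ih _ (dl_sub _ _ _ _), mem_a]
    constructor
    · rintro ⟨h1, h2, h3, h4, h5⟩
      refine ⟨h1, by omega, ?_⟩
      have : j - (k + 1) = j - k - 1 := by omega
      rwa [this]
    · rintro ⟨h1, h2, h3⟩
      refine ⟨h1, by omega, by omega, by omega, ?_⟩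
      have : j - (k + 1) = j - k - 1 := by omega
      rwa [this] at h3

/-- the language accepted from a set -/
def lang (n : ℕ) (R T : Finset ℕ) : Set (List (Fin 2)) := {w | n - 1 ∈ run n R T w}

theorem mem_lang (n : ℕ) (R T : Finset ℕ) (w : List (Fin 2)) :
    w ∈ lang n R T ↔ n - 1 ∈ run n R T w := Iff.rfl

theorem lang_inj (n : ℕ) (hn : 0 < n) (R : Finset ℕ) :
    Set.InjOn (lang n R) {T | T ⊆ range n} := by
  have key : ∀ T T' : Finset ℕ, T ⊆ range n → T' ⊆ range n → lang n R T = lang n R T' →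
      T ⊆ T' := by
    intro T T' hT hT' h j hj
    have hj' := mem_range.1 (hT hj)
    have h1 : List.replicate (n - 1 - j) (0 : Fin 2) ∈ lang n R T := by
      rw [mem_lang, run_rep n R _ T hT]
      refine ⟨by omega, by omega, ?_⟩
      have : n - 1 - (n - 1 - j) = j := by omega
      rwa [this]
    rw [h, mem_lang, run_rep n R _ T' hT'] at h1
    have : n - 1 - (n - 1 - j) = j := by omega
    rw [this] at h1
    exact h1.2.2
  intro T hT T' hT' h
  exact Subset.antisymm (key T T' hT hT' h) (key T' T hT' hT h.symm)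

/-- the number of left quotients is the number of reachable sets -/
theorem card_quot (n : ℕ) (hn : 0 < n) (R : Finset ℕ) :
    Nat.card (Set.range (fun u : List (Fin 2) =>
      ({w : List (Fin 2) | u ++ w ∈ (Mch n hn R).accepts} : Set (List (Fin 2))))) =
      Set.ncard {T | Rch n R T} := by
  have h1 : (Set.range (fun u : List (Fin 2) =>
      ({w : List (Fin 2) | u ++ w ∈ (Mch n hn R).accepts} : Set (List (Fin 2))))) =
      lang n R '' {T | Rch n R T} := by
    ext S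
    constructor
    · rintro ⟨u, rfl⟩
      refine ⟨run n R {0} u, ⟨u, rfl⟩, ?_⟩
      ext w
      rw [mem_lang, ← run_append, ← mem_acc n hn R]
      exact Iff.rfl
    · rintro ⟨T, ⟨u, rfl⟩, rfl⟩
      refine ⟨u, ?_⟩
      ext w
      rw [mem_lang, ← run_append, ← mem_acc n hn R]
      exact Iff.rfl
  rw [h1]
  have h2 : Set.ncard (lang n R '' {T | Rch n R T}) = Set.ncard {T | Rch n R T} := by
    apply Set.InjOn.ncard_image
    apply (lang_inj n hn R).mono
    rintro T ⟨u, rfl⟩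
    exact run_sub n R u _ (zero_sub' n hn)
  rw [← h2]
  rfl

theorem evalFrom_mem {m : ℕ} (N : NFA (Fin 2) (Fin m)) (w : List (Fin 2)) :
    ∀ (S : Set (Fin m)) (s : Fin m), s ∈ N.evalFrom S w ↔ ∃ q ∈ S, s ∈ N.evalFrom {q} w := by
  induction w with
  | nil =>
    intro S s
    simp [NFA.evalFrom_nil]
  | cons x w ih =>
    intro S s
    rw [NFA.evalFrom_cons, ih]
    constructor
    · rintro ⟨q, hq, h⟩
      rw [NFA.mem_stepSet] at hq
      obtain ⟨p, hp, hq⟩ := hq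
      refine ⟨p, hp, ?_⟩
      rw [NFA.evalFrom_cons, ih]
      refine ⟨q, ?_, h⟩
      rw [NFA.mem_stepSet]
      exact ⟨p, rfl, hq⟩
    · rintro ⟨p, hp, h⟩
      rw [NFA.evalFrom_cons, ih] at h
      obtain ⟨q, hq, h⟩ := h
      rw [NFA.mem_stepSet] at hq
      obtain ⟨p', hp', hq⟩ := hq
      have : p' = p := hp'
      rw [this] at hq
      refine ⟨q, ?_, h⟩
      rw [NFA.mem_stepSet]
      exact ⟨p, hp, hq⟩

theorem rep_acc (n : ℕ) (hn : 0 < n) (R : Finset ℕ) (k : ℕ) :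
    List.replicate k (0 : Fin 2) ∈ (Mch n hn R).accepts ↔ k = n - 1 := by
  rw [mem_acc, run_rep n R k _ (zero_sub' n hn), mem_singleton]
  omega

theorem minimal (n : ℕ) (hn : 0 < n) (R : Finset ℕ) (m : ℕ) (hm : m < n)
    (N : NFA (Fin 2) (Fin m)) : N.accepts ≠ (Mch n hn R).accepts := by
  intro h
  have h1 : ∀ i : Fin n, ∃ q : Fin m, q ∈ N.evalFrom N.start (List.replicate i.val 0) ∧
      ∃ s ∈ N.accept, s ∈ N.evalFrom {q} (List.replicate (n - 1 - i.val) 0) := by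
    intro i
    have h2 : List.replicate i.val (0 : Fin 2) ++ List.replicate (n - 1 - i.val) 0 ∈
        N.accepts := by
      rw [h, ← List.replicate_add, rep_acc]
      have := i.2
      omega
    rw [NFA.mem_accepts, NFA.evalFrom_append] at h2
    obtain ⟨s, hs, h3⟩ := h2
    rw [evalFrom_mem] at h3
    obtain ⟨q, hq, h3⟩ := h3
    exact ⟨q, hq, s, hs, h3⟩
  choose f hf1 hf2 using h1
  have h4 : ∃ i j : Fin n, i ≠ j ∧ f i = f j := by
    apply Fintype.exists_ne_map_eq_of_card_lt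
    simpa using hm
  obtain ⟨i, j, hij, hf⟩ := h4
  obtain ⟨s, hs, h5⟩ := hf2 j
  have h6 : List.replicate i.val (0 : Fin 2) ++ List.replicate (n - 1 - j.val) 0 ∈
      N.accepts := by
    rw [NFA.mem_accepts, NFA.evalFrom_append]
    refine ⟨s, hs, ?_⟩
    rw [evalFrom_mem]
    exact ⟨f i, hf1 i, hf ▸ h5⟩
  rw [h, ← List.replicate_add, rep_acc] at h6
  apply hij
  apply Fin.ext
  have := i.2
  have := j.2
  omega

/-- every number `2 ^ n - v` with `v ≤ X (n - 3)` is attained -/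
theorem attained (n : ℕ) (hn : 3 ≤ n) (v : ℕ) (hv : v ≤ X (n - 3)) :
    ∃ M : NFA (Fin 2) (Fin n), (∃ q : Fin n, M.start = {q}) ∧
      (∀ m : ℕ, m < n → ∀ N : NFA (Fin 2) (Fin m),
          (∃ q : Fin m, N.start = {q}) → N.accepts ≠ M.accepts) ∧
      Nat.card (Set.range (fun u : List (Fin 2) =>
          ({w : List (Fin 2) | u ++ w ∈ M.accepts} : Set (List (Fin 2))))) = 2 ^ n - v := by
  obtain ⟨R, hR, hv⟩ := at_all (n - 3) v hv
  have hR' : ∀ r ∈ R, 1 ≤ r ∧ r + 3 ≤ n := fun r hr => by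
    have := hR r hr
    omega
  refine ⟨Mch n (by omega) R, ⟨⟨0, by omega⟩, rfl⟩, fun m hm N _ => minimal n (by omega) R m hm N,
    ?_⟩
  rw [card_quot, ncard_rch n hn R hR', hv]

end Pool.Agent.W453.MAG
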