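import Pool.Agent.W453.MAG.C

set_option autoImplicit false

namespace Pool.Agent.W453.MAG.Top

open Pool.Agent.W453.MAG

/-- Over a two-letter alphabet no number `α` at the top of the range, `2 ^ n - α ≤ 2 ^ ((n + 1) / 2) - n - 1`
(for even `n` even `2 ^ n - α ≤ 3 * 2 ^ (n / 2 - 1) - n - 1`), is magic for `n`: there is a minimal
`n`-state nondeterministic automaton with one initial state whose minimal complete deterministic
automaton (= number of left quotients of its language) has exactly `α` states. -/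
theorem result :
    ∀ n : ℕ, 3 ≤ n → ∀ α : ℕ, α ≤ 2 ^ n →
      (2 ^ n + n + 1 ≤ α + 2 ^ ((n + 1) / 2) ∨
        (Even n ∧ 2 ^ n + n + 1 ≤ α + 3 * 2 ^ (n / 2 - 1))) →
      ∃ M : NFA (Fin 2) (Fin n), (∃ q : Fin n, M.start = {q}) ∧
        (∀ m : ℕ, m < n → ∀ N : NFA (Fin 2) (Fin m),
            (∃ q : Fin m, N.start = {q}) → N.accepts ≠ M.accepts) ∧
        Nat.card (Set.range (fun u : List (Fin 2) =>
            ({w : List (Fin 2) | u ++ w ∈ M.accepts} : Set (List (Fin 2))))) = α := by
  intro n hn α hα h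
  have hX : 2 ^ n - α ≤ X (n - 3) := by
    rcases h with h | ⟨he, h⟩
    · have h1 := X_low (n - 3)
      have h2 : (n - 3 + 4) / 2 = (n + 1) / 2 := by congr 1; omega
      rw [h2] at h1
      omega
    · obtain ⟨k, hk⟩ := he
      obtain ⟨m, rfl⟩ : ∃ m, k = m + 2 := ⟨k - 2, by omega⟩
      have h1 := X_low_odd m
      have h2 : n - 3 = 2 * m + 1 := by omega
      have h3 : n / 2 - 1 = m + 1 := by omega
      rw [h3] at h
      rw [h2]
      omega
  have h2 := attained n hn (2 ^ n - α) hX
  have h3 : 2 ^ n - (2 ^ n - α) = α := by omega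
  rwa [h3] at h2

end Pool.Agent.W453.MAG.Top
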